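import Pool.Agent.FH.CHN
import Pool.Agent.FH.FIN

set_option autoImplicit false

namespace Pool.Agent.Results.MP_0ba5e1_al.AbelianSylowModNilpotent

open Pool.Agent.FH

/-- Let `G` be a finite solvable group, `A` a group of automorphisms of `G` of order coprime
to the order of `G` which fixes only `1`, and `N` a normal nilpotent subgroup of `G`, invariant
under `A`, such that the Sylow subgroups of `G ⧸ N` are commutative. If `n` is at least the
length of every chain of subgroups of `A`, then `G` has a normal series of length `n` with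
nilpotent factors. Chains of subgroups of `A` have length at most the number of prime factors
of the order of `A`, counted with multiplicity. -/
theorem result :
    ∀ (G : Type) [Group G] [Finite G], Group.IsSolvable G →
      ∀ (A : Subgroup (MulAut G)),
        (∀ g : G, (∀ a : A, (a : MulAut G) g = g) → g = 1) →
        Nat.Coprime (Nat.card G) (Nat.card A) →
        ∀ (N : Subgroup G) [N.Normal],
          (∀ a : A, ∀ x ∈ N, (a : MulAut G) x ∈ N) →
          Group.IsNilpotent N →
          (∀ p : ℕ, p.Prime → ∀ P : Sylow p (G ⧸ N), ∀ x ∈ P, ∀ y ∈ P, x * y = y * x) →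
          (∀ s : LTSeries (Subgroup A), s.length ≤ (Nat.card A).primeFactorsList.length) ∧
          ∀ n : ℕ, (∀ s : LTSeries (Subgroup A), s.length ≤ n) →
            ∃ H : Fin (n + 1) → Subgroup G,
              H 0 = ⊥ ∧ H (Fin.last n) = ⊤ ∧ (∀ i : Fin (n + 1), (H i).Normal) ∧
              ∀ i : Fin n, H (Fin.castSucc i) ≤ H (Fin.succ i) ∧
                ∃ c : ℕ, (fun L : Subgroup G => ⁅L, H (Fin.succ i)⁆)^[c] (H (Fin.succ i))
                  ≤ H (Fin.castSucc i) := by
  intro G _ _ hsol A hfix hcop N _ hN hnil hsyl
  have hfinA : Finite (MulAut G) := Finite.of_injective (fun f : MulAut G => (f : G → G))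
    DFunLike.coe_injective
  refine ⟨fun s => length_le_Omega s, fun n hn => ?_⟩
  obtain ⟨f, hf, hfn⟩ := exists_height n hn
  rw [Subgroup.isNilpotent_iff_lowerCentralSeries] at hnil
  obtain ⟨c, hc⟩ := hnil
  refine R_series n (R_eq_bot f hf A.subtype hsol hcop hfix N ?_ c ?_ (abs_of_sylow hsyl) n hfn)
  · intro a x hx
    exact hN a x hx
  · rw [ABS_iter_eq, hc]

end Pool.Agent.Results.MP_0ba5e1_al.AbelianSylowModNilpotent
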